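import Pool.Agent.Helper69.UX.StA
import Pool.Agent.Helper94.PV.M_UBD

/-!
# Project UX (MP_e12aa9_pr), module IDN: the independence number
-/

set_option autoImplicit false

namespace Pool.Agent.Helper63.UX

open Finset Filter Pool.Agent.Helper82.CN Pool.Agent.Helper11.PV Pool.Agent.Helper69.VX Pool.Agent.Helper69.UX

lemma ind_le_IDN {n : ℕ} (ω : Sym2 (Fin n) → Bool) : ind ω ≤ n := by
  classical
  unfold ind Pool.Agent.Helper69.VX.al
  apply Finset.sup_le
  intro S _
  have := Finset.card_le_univ S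
  simpa using this

lemma prob_ind_IDN {p : ℝ} (h0 : 0 ≤ p) (h1 : p < 1) {n : ℕ} (hn : 1 ≤ n) (j : ℕ) :
    PP p (fun ω : Sym2 (Fin n) → Bool => j ≤ ind ω) ≤ Real.exp (hv p n j) := by
  classical
  have step : PP p (fun ω : Sym2 (Fin n) → Bool => j ≤ ind ω) ≤
      EE p (fun ω => ∑ S ∈ (univ : Finset (Fin n)).powersetCard j,
        Pool.Agent.Helper94.PV.indb false S ω) := by
    unfold PP
    apply EE_mono h0 h1.le
    intro ω
    by_cases h : j ≤ ind ω
    · rw [if_pos h]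
      have hne : ((univ : Finset (Finset (Fin n))).filter
          (fun S => ∀ u ∈ S, ∀ v ∈ S, u ≠ v → ω s(u, v) = false)).Nonempty :=
        ⟨∅, by simp⟩
      obtain ⟨S, hS, hSe⟩ := Finset.exists_mem_eq_sup _ hne Finset.card
      have h2 : j ≤ S.card := by
        rw [← hSe]
        have hx := h
        unfold ind Pool.Agent.Helper69.VX.al at hx
        convert hx
      obtain ⟨S', hS', hc⟩ := Finset.exists_subset_card_eq h2
      have h3 : ∀ u ∈ S, ∀ v ∈ S, u ≠ v → ω s(u, v) = false := (Finset.mem_filter.mp hS).2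
      have h4 : Pool.Agent.Helper94.PV.indb false S' ω = 1 := by
        unfold Pool.Agent.Helper94.PV.indb
        rw [if_pos]
        intro u hu v hv huv
        exact h3 u (hS' hu) v (hS' hv) huv
      calc (1 : ℝ) = Pool.Agent.Helper94.PV.indb false S' ω := h4.symm
        _ ≤ _ := Finset.single_le_sum
          (fun S'' _ => Pool.Agent.Helper94.PV.indb_nonneg false S'' ω)
          (Finset.mem_powersetCard.mpr ⟨Finset.subset_univ _, hc⟩)
    · rw [if_neg h]
      exact Finset.sum_nonneg fun S' _ => Pool.Agent.Helper94.PV.indb_nonneg false S' ω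
  refine step.trans ?_
  rw [EE_sum]
  have h4 : ∀ S ∈ (univ : Finset (Fin n)).powersetCard j,
      EE p (Pool.Agent.Helper94.PV.indb false S) = (1 - p) ^ (j.choose 2) := by
    intro S hS
    rw [Pool.Agent.Helper94.PV.indb_prob, (Finset.mem_powersetCard.1 hS).2]
    simp [bw]
  rw [Finset.sum_congr rfl h4, Finset.sum_const, Finset.card_powersetCard, Finset.card_univ,
    Fintype.card_fin, nsmul_eq_mul]
  have hn0 : (0 : ℝ) < n := by exact_mod_cast hn
  have hq : 0 < 1 - p := by linarith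
  have hf : (0 : ℝ) < (j.factorial : ℝ) := by exact_mod_cast j.factorial_pos
  have h5 : Real.exp (hv p n j) = (n : ℝ) ^ j / (j.factorial : ℝ) * (1 - p) ^ (j.choose 2) := by
    unfold hv bb
    rw [one_div, Real.log_inv, sub_eq_add_neg, Real.exp_add, Real.exp_sub,
      Real.exp_log hf, ← Real.log_pow, Real.exp_log (by positivity)]
    congr 1
    rw [mul_neg, neg_neg, ← Real.log_pow, Real.exp_log (by positivity)]
  rw [h5]
  apply mul_le_mul_of_nonneg_right _ (pow_nonneg hq.le _)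
  exact Nat.choose_le_pow_div j n

lemma bb_pos_IDN {p : ℝ} (h0 : 0 < p) (h1 : p < 1) : 0 < bb p := by
  unfold bb
  apply Real.log_pos
  rw [lt_div_iff₀ (by linarith)]
  linarith

lemma p_lt_one_IDN {p : ℝ} (h1 : p ≤ 1 - 1 / Real.exp 2) : p < 1 := by
  have : 0 < 1 / Real.exp 2 := by positivity
  linarith

/-- `α₀ + 10` is at most a small power -/
lemma al_small_IDN {p : ℝ} (h0 : 0 < p) (h1 : p < 1) {e : ℝ} (he : 0 < e) :
    ∃ n0 : ℕ, ∀ n : ℕ, n0 ≤ n → 1 ≤ n ∧ Pool.Agent.Helper82.CN.al p n + 10 ≤ (n : ℝ) ^ e := by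
  have hb := bb_pos_IDN h0 h1
  set β := bb p with hβ
  have hlog : Tendsto (fun n : ℕ => Real.log (n : ℝ)) atTop atTop :=
    Real.tendsto_log_atTop.comp tendsto_natCast_atTop_atTop
  have hc : Tendsto (fun n : ℕ => ((n : ℕ) : ℝ)) atTop atTop := tendsto_natCast_atTop_atTop
  have hlo : (fun n : ℕ => Real.log (n : ℝ)) =o[atTop] (fun n : ℕ => ((n : ℝ) ^ e)) :=
    (isLittleO_log_rpow_atTop he).comp_tendsto hc
  have hpw : Tendsto (fun n : ℕ => ((n : ℝ) ^ e)) atTop atTop := (tendsto_rpow_atTop he).comp hc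
  have e1 := hlo.bound (show 0 < β / 8 by positivity)
  have e2 := hlog.eventually (eventually_ge_atTop (β + 1))
  have e3 := hpw.eventually (eventually_ge_atTop (2 * (2 * (1 - Real.log 2) / β + 11)))
  obtain ⟨n0, hn0⟩ := eventually_atTop.1 ((e1.and (e2.and e3)).and (eventually_ge_atTop 1))
  refine ⟨n0, fun n hn => ?_⟩
  obtain ⟨⟨h3, h4, h5⟩, h6⟩ := hn0 n hn
  refine ⟨h6, ?_⟩
  have hL0 : 0 ≤ Real.log (n : ℝ) := by linarith
  have hp0 : 0 ≤ (n : ℝ) ^ e := by positivity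
  rw [Real.norm_of_nonneg hL0, Real.norm_of_nonneg hp0] at h3
  have h7 : 0 ≤ Real.log (Real.log n / β) := by
    apply Real.log_nonneg
    rw [le_div_iff₀ hb]
    linarith
  have h8 : 0 ≤ 2 * Real.log (Real.log n / β) / β := by positivity
  have h9 : 2 * Real.log n / β ≤ (n : ℝ) ^ e / 4 := by
    rw [div_le_iff₀ hb]
    nlinarith [h3]
  unfold Pool.Agent.Helper82.CN.al
  rw [← hβ]
  linarith

theorem hIDN : StMkb → StIDN := by
  intro hM p ε h0 h1' hε hε1
  have h1 := p_lt_one_IDN h1'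
  obtain ⟨n1, hn1⟩ := hM p 8 (ε / 8) h0 h1 (by norm_num) (by positivity)
  obtain ⟨n2, hn2⟩ := al_small_IDN h0 h1 (show 0 < ε / 2 by positivity)
  refine ⟨max n1 n2, fun n T th hn hW => ?_⟩
  obtain ⟨hW1, hW2, hW3⟩ := hW
  have hna := hn1 n
  obtain ⟨hn1', hal⟩ := hn2 n (le_trans (le_max_right _ _) hn)
  have hnn1 : n1 ≤ n := le_trans (le_max_left _ _) hn
  have hnR : (1 : ℝ) ≤ n := by exact_mod_cast hn1'
  have hn0 : (0 : ℝ) < n := by linarith
  have hL0 : 0 ≤ Real.log (n : ℝ) := Real.log_nonneg hnR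
  have ha : Pool.Agent.Helper82.CN.al p n = (T : ℝ) + 1 + th := hW1
  -- probabilities
  have key : ∀ j : ℕ, |((T + j : ℕ) : ℝ) - Pool.Agent.Helper82.CN.al p n| ≤ 8 →
      PP p (fun ω : Sym2 (Fin n) → Bool => T + j ≤ ind ω) ≤ (n : ℝ) ^ (1 + th - j + ε / 8) := by
    intro j hj
    refine (prob_ind_IDN h0.le h1 hn1' (T + j)).trans ?_
    have h2 := (abs_le.1 (hn1 n (T + j) hnn1 hj)).2
    rw [Real.rpow_def_of_pos hn0]
    apply Real.exp_le_exp.mpr
    rw [ha] at h2
    push_cast at h2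
    nlinarith [h2]
  have hP2 := key 2 (by
    rw [ha]; push_cast
    rw [abs_le]; constructor <;> linarith)
  have hP8 := key 8 (by
    rw [ha]; push_cast
    rw [abs_le]; constructor <;> linarith)
  have hP2' : PP p (fun ω : Sym2 (Fin n) → Bool => T + 2 ≤ ind ω) ≤ (n : ℝ) ^ (th - 1 + ε / 8) := by
    refine hP2.trans (le_of_eq ?_)
    congr 1; push_cast; ring
  have hP8' : PP p (fun ω : Sym2 (Fin n) → Bool => T + 8 ≤ ind ω) ≤ (n : ℝ) ^ (th - 7 + ε / 8) := by
    refine hP8.trans (le_of_eq ?_)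
    congr 1; push_cast; ring
  have h2nd : EE p (fun ω : Sym2 (Fin n) → Bool => if T + 2 ≤ ind ω then (ind ω : ℝ) else 0) ≤
      (n : ℝ) ^ (th - 1 + ε) := by
    have hpt : EE p (fun ω : Sym2 (Fin n) → Bool => if T + 2 ≤ ind ω then (ind ω : ℝ) else 0) ≤
        ((T : ℝ) + 8) * PP p (fun ω : Sym2 (Fin n) → Bool => T + 2 ≤ ind ω) +
          n * PP p (fun ω : Sym2 (Fin n) → Bool => T + 8 ≤ ind ω) := by
      unfold PP
      rw [← EE_mul_left, ← EE_mul_left, ← EE_add]
      apply EE_mono h0.le h1.le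
      intro ω
      have hi : (ind ω : ℝ) ≤ n := by exact_mod_cast ind_le_IDN ω
      by_cases hA : T + 2 ≤ ind ω
      · by_cases hB : T + 8 ≤ ind ω
        · rw [if_pos hA, if_pos hA, if_pos hB]
          have : (0 : ℝ) ≤ (T : ℝ) + 8 := by positivity
          linarith
        · rw [if_pos hA, if_pos hA, if_neg hB]
          push Not at hB
          have : (ind ω : ℝ) ≤ (T : ℝ) + 8 := by
            have : ind ω ≤ T + 8 := hB.le
            exact_mod_cast this
          linarith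
      · have hB : ¬ (T + 8 ≤ ind ω) := by omega
        rw [if_neg hA, if_neg hA, if_neg hB]
        simp
    refine hpt.trans ?_
    have hT : (T : ℝ) + 8 + 1 ≤ (n : ℝ) ^ (ε / 2) := by linarith
    have hT0 : (0 : ℝ) ≤ (T : ℝ) + 8 := by positivity
    have g1 : ((T : ℝ) + 8) * PP p (fun ω : Sym2 (Fin n) → Bool => T + 2 ≤ ind ω) ≤
        ((T : ℝ) + 8) * (n : ℝ) ^ (th - 1 + ε / 8) := mul_le_mul_of_nonneg_left hP2' hT0
    have g2 : (n : ℝ) * PP p (fun ω : Sym2 (Fin n) → Bool => T + 8 ≤ ind ω) ≤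
        (n : ℝ) ^ (th - 1 + ε / 8) := by
      calc (n : ℝ) * PP p (fun ω : Sym2 (Fin n) → Bool => T + 8 ≤ ind ω)
          ≤ (n : ℝ) * (n : ℝ) ^ (th - 7 + ε / 8) := mul_le_mul_of_nonneg_left hP8' hn0.le
        _ = (n : ℝ) ^ (1 + (th - 7 + ε / 8)) := by
            rw [Real.rpow_add hn0 1 (th - 7 + ε / 8), Real.rpow_one]
        _ ≤ (n : ℝ) ^ (th - 1 + ε / 8) :=
            Real.rpow_le_rpow_of_exponent_le hnR (by linarith)
    calc _ ≤ ((T : ℝ) + 8) * (n : ℝ) ^ (th - 1 + ε / 8) + (n : ℝ) ^ (th - 1 + ε / 8) :=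
          add_le_add g1 g2
      _ = ((T : ℝ) + 8 + 1) * (n : ℝ) ^ (th - 1 + ε / 8) := by ring
      _ ≤ (n : ℝ) ^ (ε / 2) * (n : ℝ) ^ (th - 1 + ε / 8) :=
          mul_le_mul_of_nonneg_right hT (by positivity)
      _ = (n : ℝ) ^ (ε / 2 + (th - 1 + ε / 8)) := by
          rw [Real.rpow_add hn0 (ε / 2) (th - 1 + ε / 8)]
      _ ≤ (n : ℝ) ^ (th - 1 + ε) := Real.rpow_le_rpow_of_exponent_le hnR (by linarith)
  refine ⟨?_, h2nd, ?_⟩
  · have hle1 : (n : ℝ) ^ (th - 1 + ε) ≤ 1 := by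
      apply Real.rpow_le_one_of_one_le_of_nonpos hnR
      linarith
    have hpt : EE p (fun ω : Sym2 (Fin n) → Bool => (ind ω : ℝ)) ≤ EE p (fun _ : Sym2 (Fin n) → Bool => (T : ℝ) + 1) +
        EE p (fun ω : Sym2 (Fin n) → Bool => if T + 2 ≤ ind ω then (ind ω : ℝ) else 0) := by
      rw [← EE_add]
      apply EE_mono h0.le h1.le
      intro ω
      by_cases hA : T + 2 ≤ ind ω
      · rw [if_pos hA]
        have : (0 : ℝ) ≤ (T : ℝ) + 1 := by positivity
        linarith
      · rw [if_neg hA]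
        push Not at hA
        have : ind ω ≤ T + 1 := by omega
        have : (ind ω : ℝ) ≤ (T : ℝ) + 1 := by exact_mod_cast this
        linarith
    rw [EE_const] at hpt
    linarith
  · refine hP8'.trans (Real.rpow_le_rpow_of_exponent_le hnR (by linarith))

end Pool.Agent.Helper63.UX
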