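import Pool.Agent.Helper69.UX.StA

/-!
# Project UX (MP_e12aa9_pr), module WTL: planted expectation of the weight, lower bound
-/

set_option autoImplicit false

namespace Pool.Agent.Helper63.UX

open Finset Filter Pool.Agent.Helper82.CN Pool.Agent.Helper11.PV Pool.Agent.Helper69.VX Pool.Agent.Helper69.UX

/-- the pairs in `S` -/
def BS {n : ℕ} (S : Finset (Fin n)) : Finset (Sym2 (Fin n)) := S.offDiag.image Sym2.mk.uncurry

lemma mem_BS {n : ℕ} {S : Finset (Fin n)} {a b : Fin n} : s(a, b) ∈ BS S ↔ a ≠ b ∧ a ∈ S ∧ b ∈ S := by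
  unfold BS
  rw [Finset.mem_image]
  constructor
  · rintro ⟨⟨c, d⟩, h, h2⟩
    rw [Finset.mem_offDiag] at h
    have h3 : s(c, d) = s(a, b) := h2
    rw [Sym2.eq_iff] at h3
    rcases h3 with ⟨rfl, rfl⟩ | ⟨rfl, rfl⟩
    · exact ⟨h.2.2, h.1, h.2.1⟩
    · exact ⟨fun e => h.2.2 e.symm, h.2.1, h.1⟩
  · rintro ⟨h1, h2, h3⟩
    exact ⟨(a, b), Finset.mem_offDiag.mpr ⟨h2, h3, h1⟩, rfl⟩

lemma card_BS {n : ℕ} (S : Finset (Fin n)) : (BS S).card = S.card.choose 2 := by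
  rw [← Sym2.card_image_offDiag S]
  rfl

lemma BS_inter {n : ℕ} (S A : Finset (Fin n)) : BS S ∩ BS A = BS (S ∩ A) := by
  ext e
  induction e using Sym2.ind with
  | _ a b =>
    rw [Finset.mem_inter, mem_BS, mem_BS, mem_BS, Finset.mem_inter, Finset.mem_inter]
    tauto

lemma BS_empty {n : ℕ} : BS (∅ : Finset (Fin n)) = ∅ := by
  simp [BS]

/-- the in-class pairs -/
def ZP {n : ℕ} (P : Finset (Finset (Fin n))) : Finset (Sym2 (Fin n)) := P.biUnion BS

lemma BS_disj {n : ℕ} {A B : Finset (Fin n)} (h : Disjoint A B) : Disjoint (BS A) (BS B) := by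
  rw [Finset.disjoint_iff_inter_eq_empty, BS_inter, Finset.disjoint_iff_inter_eq_empty.mp h, BS_empty]

lemma card_ZP {n : ℕ} {P : Finset (Finset (Fin n))}
    (hP : ∀ A ∈ P, ∀ B ∈ P, A ≠ B → Disjoint A B) : (ZP P).card = inn P := by
  unfold ZP inn
  rw [Finset.card_biUnion]
  · exact Finset.sum_congr rfl fun A _ => card_BS A
  · intro A hA B hB hAB
    exact BS_disj (hP A hA B hB hAB)

lemma card_sdiff_ZP {n : ℕ} {P : Finset (Finset (Fin n))}
    (hP : ∀ A ∈ P, ∀ B ∈ P, A ≠ B → Disjoint A B) (S : Finset (Fin n)) :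
    (BS S \ ZP P).card = S.card.choose 2 - ∑ A ∈ P, (S ∩ A).card.choose 2 := by
  rw [Finset.card_sdiff, card_BS]
  congr 1
  have h1 : ZP P ∩ BS S = P.biUnion (fun A => BS (S ∩ A)) := by
    unfold ZP
    ext e
    rw [Finset.mem_inter, Finset.mem_biUnion, Finset.mem_biUnion]
    constructor
    · rintro ⟨⟨A, hA, he⟩, hS⟩
      exact ⟨A, hA, by rw [← BS_inter]; exact Finset.mem_inter.mpr ⟨hS, he⟩⟩
    · rintro ⟨A, hA, he⟩
      rw [← BS_inter, Finset.mem_inter] at he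
      exact ⟨⟨A, hA, he.2⟩, he.1⟩
  rw [h1, Finset.card_biUnion]
  · exact Finset.sum_congr rfl fun A _ => card_BS _
  · intro A hA B hB hAB
    apply BS_disj
    exact (hP A hA B hB hAB).mono Finset.inter_subset_right Finset.inter_subset_right

lemma prp_iff {n : ℕ} (P : Finset (Finset (Fin n))) (ω : Sym2 (Fin n) → Bool) :
    prp ω P ↔ ∀ i ∈ ZP P, ω i = false := by
  unfold prp ZP
  constructor
  · intro h i hi
    rw [Finset.mem_biUnion] at hi
    obtain ⟨A, hA, hi⟩ := hi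
    induction i using Sym2.ind with
    | _ a b =>
      rw [mem_BS] at hi
      exact h A hA a hi.2.1 b hi.2.2 hi.1
  · intro h A hA u hu v hv huv
    exact h _ (Finset.mem_biUnion.mpr ⟨A, hA, mem_BS.mpr ⟨huv, hu, hv⟩⟩)

lemma ind_iff {n : ℕ} (S : Finset (Fin n)) (ω : Sym2 (Fin n) → Bool) :
    (∀ u ∈ S, ∀ v ∈ S, u ≠ v → ω s(u, v) = false) ↔ ∀ i ∈ BS S, ω i = false := by
  constructor
  · intro h i hi
    induction i using Sym2.ind with
    | _ a b =>
      rw [mem_BS] at hi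
      exact h a hi.2.1 b hi.2.2 hi.1
  · intro h u hu v hv huv
    exact h _ (mem_BS.mpr ⟨huv, hu, hv⟩)

open Classical in
lemma Xk_eq {n T : ℕ} (ω : Sym2 (Fin n) → Bool) :
    Xk n T ω = ∑ S ∈ (univ : Finset (Fin n)).powersetCard T,
      (if (∀ i ∈ BS S, ω i = false) then (1 : ℝ) else 0) := by
  unfold Xk
  rw [← Finset.sum_filter, Finset.sum_const, nsmul_eq_mul, mul_one]
  congr 2
  apply Finset.filter_congr
  intro S _
  exact ind_iff S ω

lemma choose_two_add (a b : ℕ) : a.choose 2 + b.choose 2 + a * b = (a + b).choose 2 := by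
  induction b with
  | zero => simp
  | succ b ih =>
    have h1 : (b + 1).choose 2 = b.choose 1 + b.choose 2 := Nat.choose_succ_succ b 1
    have h2 : (a + (b + 1)).choose 2 = (a + b).choose 1 + (a + b).choose 2 := Nat.choose_succ_succ (a + b) 1
    rw [h1, h2, Nat.choose_one_right, Nat.choose_one_right, ← ih]
    ring

lemma sum_choose_two_le {α : Type} [DecidableEq α] (P : Finset α) (s : α → ℕ) :
    ∑ A ∈ P, (s A).choose 2 ≤ (∑ A ∈ P, s A).choose 2 := by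
  induction P using Finset.induction_on with
  | empty => simp
  | insert a P ha ih =>
    rw [Finset.sum_insert ha, Finset.sum_insert ha]
    have := choose_two_add (s a) (∑ A ∈ P, s A)
    omega

lemma choose_two_split {T a : ℕ} (h1 : 1 ≤ a) (h2 : a + 1 ≤ T) :
    a.choose 2 + (T - a).choose 2 + (T - 1) ≤ T.choose 2 := by
  have h3 := choose_two_add a (T - a)
  rw [show a + (T - a) = T by omega] at h3
  have h4 : T - 1 ≤ a * (T - a) := by
    obtain ⟨x, rfl⟩ := Nat.exists_eq_add_of_le h1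
    obtain ⟨y, rfl⟩ := Nat.exists_eq_add_of_le h2
    have e1 : 1 + x + 1 + y - 1 = 1 + x + y := by omega
    have e2 : 1 + x + 1 + y - (1 + x) = 1 + y := by omega
    rw [e1, e2]
    nlinarith [Nat.zero_le (x * y)]
  omega

/-- a set which is not a class has at least `T-1` pairs outside the classes -/
lemma outside_WTL {n T : ℕ} {P : Finset (Finset (Fin n))}
    (hP1 : ∀ A ∈ P, ∀ B ∈ P, A ≠ B → Disjoint A B) (hP2 : ∀ v : Fin n, ∃ A ∈ P, v ∈ A)
    (hT : ∀ A ∈ P, A.card ≤ T) (hT1 : 1 ≤ T) {S : Finset (Fin n)} (hS : S.card = T) (hSP : S ∉ P) :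
    T - 1 ≤ T.choose 2 - ∑ A ∈ P, (S ∩ A).card.choose 2 := by
  have hne : S.Nonempty := by
    rw [← Finset.card_pos]; omega
  obtain ⟨x, hx⟩ := hne
  obtain ⟨A, hA, hxA⟩ := hP2 x
  have ha1 : 1 ≤ (S ∩ A).card := by
    apply Finset.card_pos.mpr
    exact ⟨x, Finset.mem_inter.mpr ⟨hx, hxA⟩⟩
  have ha2 : (S ∩ A).card + 1 ≤ T := by
    by_contra hcon
    have h1 : (S ∩ A).card ≤ S.card := Finset.card_le_card Finset.inter_subset_left
    have h2 : (S ∩ A) = S := Finset.eq_of_subset_of_card_le Finset.inter_subset_left (by omega)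
    have h3 : S ⊆ A := Finset.inter_eq_left.mp h2
    have h4 : S = A := Finset.eq_of_subset_of_card_le h3 (by rw [hS]; exact hT A hA)
    exact hSP (h4 ▸ hA)
  have hsum : ∑ A ∈ P, (S ∩ A).card = T := by
    have h1 : S = P.biUnion (fun A => S ∩ A) := by
      ext v
      rw [Finset.mem_biUnion]
      constructor
      · intro hv
        obtain ⟨B, hB, hvB⟩ := hP2 v
        exact ⟨B, hB, Finset.mem_inter.mpr ⟨hv, hvB⟩⟩
      · rintro ⟨B, hB, hvB⟩
        exact (Finset.mem_inter.mp hvB).1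
    have h2 : (P.biUnion (fun A => S ∩ A)).card = ∑ A ∈ P, (S ∩ A).card := by
      apply Finset.card_biUnion
      intro A hA B hB hAB
      exact (hP1 A hA B hB hAB).mono Finset.inter_subset_right Finset.inter_subset_right
    rw [← h2, ← h1, hS]
  have h5 : ∑ B ∈ P, (S ∩ B).card.choose 2 =
      (S ∩ A).card.choose 2 + ∑ B ∈ P.erase A, (S ∩ B).card.choose 2 :=
    (Finset.add_sum_erase P (fun B => (S ∩ B).card.choose 2) hA).symm
  have h6 : (S ∩ A).card + ∑ B ∈ P.erase A, (S ∩ B).card = T := by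
    rw [Finset.add_sum_erase P (fun B => (S ∩ B).card) hA, hsum]
  have h7 := sum_choose_two_le (P.erase A) (fun B => (S ∩ B).card)
  have h8 : ∑ B ∈ P.erase A, (S ∩ B).card = T - (S ∩ A).card := by omega
  rw [h8] at h7
  have h9 := choose_two_split ha1 ha2
  omega

lemma exp_lower_WTL {x : ℝ} (h0 : 0 ≤ x) (h1 : x ≤ 1 / 2) : Real.exp (-x - x ^ 2) ≤ 1 - x := by
  have h2 : 0 < 1 - x := by linarith
  have h3 : -x - x ^ 2 = -(x + x ^ 2) := by ring
  rw [h3, Real.exp_neg, inv_le_iff_one_le_mul₀ (Real.exp_pos _)]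
  have h4 := Real.quadratic_le_exp_of_nonneg (show 0 ≤ x + x ^ 2 by positivity)
  have h5 : 1 ≤ (1 - x) * (1 + (x + x ^ 2) + (x + x ^ 2) ^ 2 / 2) := by
    have h6 : (1 - x) * (1 + (x + x ^ 2) + (x + x ^ 2) ^ 2 / 2) - 1 =
        x ^ 2 * ((1 - x) * (1 + x) ^ 2 / 2 - x) := by ring
    have h7 : 0 ≤ (1 - x) * (1 + x) ^ 2 / 2 - x := by
      nlinarith [mul_nonneg h0 (show 0 ≤ 1 / 2 - x by linarith), sq_nonneg x,
        mul_nonneg (mul_nonneg h0 h0) (show 0 ≤ 1 / 2 - x by linarith)]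
    have h8 : 0 ≤ x ^ 2 * ((1 - x) * (1 + x) ^ 2 / 2 - x) := mul_nonneg (sq_nonneg x) h7
    linarith
  refine h5.trans (mul_le_mul_of_nonneg_left h4 h2.le)

lemma one_sub_exp_WTL {x : ℝ} (h0 : 0 ≤ x) (h1 : x ≤ 1) :
    1 - Real.exp (-x) ≤ x - x ^ 2 / 2 + x ^ 3 := by
  have h := Real.exp_bound (x := -x) (by rw [abs_neg, abs_of_nonneg h0]; exact h1) (n := 3) (by norm_num)
  rw [Finset.sum_range_succ, Finset.sum_range_succ, Finset.sum_range_one] at h
  rw [abs_neg, abs_of_nonneg h0] at h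
  have h2 := (abs_le.1 h).1
  norm_num [Nat.factorial] at h2
  have h3 : 0 ≤ x ^ 3 := by positivity
  nlinarith

lemma exp_neg_bb {p : ℝ} (h1 : p < 1) : Real.exp (-bb p) = 1 - p := by
  unfold bb
  rw [one_div, Real.log_inv, neg_neg, Real.exp_log (by linarith)]

lemma bb_pos_WTL {p : ℝ} (h0 : 0 < p) (h1 : p < 1) : 0 < bb p := by
  unfold bb
  apply Real.log_pos
  rw [lt_div_iff₀ (by linarith)]
  linarith

lemma p_lt_one_WTL {p : ℝ} (h1 : p ≤ 1 - 1 / Real.exp 2) : p < 1 := by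
  have : 0 < 1 / Real.exp 2 := by positivity
  linarith

lemma qT_WTL {p ε : ℝ} (h0 : 0 < p) (h1 : p < 1) (hε : 0 < ε) :
    ∃ n0 : ℕ, ∀ (n T : ℕ) (th : ℝ), n0 ≤ n → Win p ε n T th → 1 ≤ T →
      (1 - p) ^ (T - 1) ≤ 1 / (n : ℝ) := by
  have hb := bb_pos_WTL h0 h1
  have hlog : Tendsto (fun n : ℕ => Real.log (n : ℝ)) atTop atTop :=
    Real.tendsto_log_atTop.comp tendsto_natCast_atTop_atTop
  have hlogb : Tendsto (fun n : ℕ => Real.log (n : ℝ) / bb p) atTop atTop :=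
    hlog.atTop_div_const hb
  have e1 := hlogb.eventually (Real.isLittleO_log_id_atTop.bound (show 0 < bb p / 4 by positivity))
  have e2 := hlog.eventually (eventually_ge_atTop (4 * bb p + 1))
  obtain ⟨n0, hn0⟩ := eventually_atTop.1 (e1.and (e2.and (eventually_ge_atTop 1)))
  refine ⟨n0, fun n T th hn hW hT => ?_⟩
  obtain ⟨h3, h4, h5⟩ := hn0 n hn
  obtain ⟨hW1, hW2, hW3⟩ := hW
  have hlam : 0 < Real.log (n : ℝ) := by linarith
  have hlb : 0 < Real.log (n : ℝ) / bb p := by positivity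
  simp only [id, Real.norm_eq_abs, abs_of_pos hlb] at h3
  have h6 : Real.log (Real.log (n : ℝ) / bb p) ≤ Real.log (n : ℝ) / 4 := by
    refine (le_abs_self _).trans (h3.trans (le_of_eq ?_))
    field_simp
  have hn : (0 : ℝ) < n := by exact_mod_cast h5
  have h7 : (1 - p) ^ (T - 1) = Real.exp (-(bb p * ((T : ℝ) - 1))) := by
    rw [← exp_neg_bb h1, ← Real.exp_nat_mul]
    congr 1
    rw [Nat.cast_sub hT]
    push_cast
    ring
  have h7' : 1 / (n : ℝ) = Real.exp (-Real.log n) := by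
    rw [Real.exp_neg, Real.exp_log hn, one_div]
  rw [h7, h7']
  apply Real.exp_le_exp.mpr
  have h8 : bb p * a0 p n = 2 * Real.log n - 2 * Real.log (Real.log n / bb p) +
      2 * (1 - Real.log 2) + bb p := by
    show bb p * Pool.Agent.Helper82.CN.al p n = _
    unfold Pool.Agent.Helper82.CN.al
    field_simp
  have h9 : bb p * ((T : ℝ) - 1) = bb p * a0 p n - bb p * (2 + th) := by
    rw [hW1]; ring
  have h10 : Real.log 2 < 1 := by
    have := Real.log_two_lt_d9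
    linarith
  have h11 : bb p * th ≤ bb p := by
    have : th ≤ 1 := by linarith
    nlinarith
  have h12 : bb p * (2 + th) = 2 * bb p + bb p * th := by ring
  linarith

lemma real_WTL {n ε th M k η E1 : ℝ} (hnR : 1 ≤ n) (hε : 0 < ε) (hε1 : ε ≤ 1 / 24)
    (hth : 1 / 2 ≤ th) (hMlo : n ^ (1 + th - ε / 8) ≤ M) (hk0 : 0 ≤ k) (hkn : k ≤ n)
    (hη : η = k / M) (hE10 : 0 ≤ E1) (hE1le : E1 ≤ M * (1 + n ^ (-1 + ε / 4)) + k + n ^ (ε / 4))
    (hC2 : 2 ≤ n ^ ((1 : ℝ) / 4)) (hC1 : 8 ≤ n ^ (3 * ε / 4)) :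
    0 ≤ η ∧ η ≤ 1 / 2 ∧ (1 - Real.exp (-η)) * E1 + η ^ 2 * (k + (1 / n) * E1) ≤
      η * M - η ^ 2 * M / 2 + η * k + n ^ ε := by
  have hn0 : 0 < n := by linarith
  have hM0 : 0 < M := lt_of_lt_of_le (Real.rpow_pos_of_pos hn0 _) hMlo
  have hη0 : 0 ≤ η := by rw [hη]; exact div_nonneg hk0 hM0.le
  have hηM : η * M = k := by rw [hη]; field_simp
  have hηu : η ≤ n ^ (-(th - ε / 8)) := by
    rw [hη, div_le_iff₀ hM0]
    calc k ≤ n := hkn
      _ = n ^ (-(th - ε / 8)) * n ^ (1 + th - ε / 8) := by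
          rw [← Real.rpow_add hn0]
          rw [show -(th - ε / 8) + (1 + th - ε / 8) = 1 by ring, Real.rpow_one]
      _ ≤ n ^ (-(th - ε / 8)) * M :=
          mul_le_mul_of_nonneg_left hMlo (Real.rpow_nonneg hn0.le _)
  have hη12 : η ≤ 1 / 2 := by
    refine hηu.trans ?_
    have h2 : n ^ (-(th - ε / 8)) ≤ n ^ (-((1 : ℝ) / 4)) :=
      Real.rpow_le_rpow_of_exponent_le hnR (by linarith)
    refine h2.trans ?_
    rw [Real.rpow_neg hn0.le]
    rw [inv_le_comm₀ (by positivity) (by norm_num)]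
    calc ((1 : ℝ) / 2)⁻¹ = 2 := by norm_num
      _ ≤ _ := hC2
  refine ⟨hη0, hη12, ?_⟩
  have hη2 : η ^ 2 * n ≤ n ^ (ε / 4) := by
    have h2 : η ^ 2 ≤ (n ^ (-(th - ε / 8))) ^ 2 := pow_le_pow_left₀ hη0 hηu 2
    have h3 : (n ^ (-(th - ε / 8))) ^ 2 = n ^ (-(th - ε / 8) * 2) := by
      rw [← Real.rpow_natCast, ← Real.rpow_mul hn0.le]
      norm_num
    calc η ^ 2 * n ≤ n ^ (-(th - ε / 8) * 2) * n := by
          rw [← h3]; exact mul_le_mul_of_nonneg_right h2 hn0.le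
      _ = n ^ (-(th - ε / 8) * 2 + 1) := by
          rw [Real.rpow_add hn0, Real.rpow_one]
      _ ≤ n ^ (ε / 4) := Real.rpow_le_rpow_of_exponent_le hnR (by linarith)
  have hη3M : η ^ 3 * M ≤ n ^ (ε / 4) := by
    have h2 : η ^ 3 * M = η ^ 2 * (η * M) := by ring
    rw [h2, hηM]
    exact (mul_le_mul_of_nonneg_left hkn (sq_nonneg _)).trans hη2
  have hη2k : η ^ 2 * k ≤ n ^ (ε / 4) :=
    (mul_le_mul_of_nonneg_left hkn (sq_nonneg _)).trans hη2
  set X := n ^ (ε / 4) with hX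
  set Y := n ^ (-1 + ε / 4) with hY
  have hX0 : 0 ≤ X := Real.rpow_nonneg hn0.le _
  have hY0 : 0 ≤ Y := Real.rpow_nonneg hn0.le _
  have hnpow : Y * n = X := by
    rw [hX, hY, Real.rpow_add hn0, Real.rpow_neg_one]
    field_simp
  have hn4 : 1 ≤ X := Real.one_le_rpow hnR (by positivity)
  have hex0 : 0 ≤ 1 - Real.exp (-η) := by
    have : Real.exp (-η) ≤ 1 := by
      rw [Real.exp_le_one_iff]; linarith
    linarith
  have hkY : k * Y ≤ X := by
    rw [← hnpow, mul_comm]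
    exact mul_le_mul_of_nonneg_left hkn hY0
  have hsumx : (1 - Real.exp (-η)) * E1 ≤ η * M - η ^ 2 * M / 2 + η * k + 3 * X := by
    have h2 := one_sub_exp_WTL hη0 (by linarith : η ≤ 1)
    have hcη : η - η ^ 2 / 2 + η ^ 3 ≤ η := by
      nlinarith [mul_nonneg (sq_nonneg η) (show 0 ≤ 1 / 2 - η by linarith)]
    have hc0 : 0 ≤ η - η ^ 2 / 2 + η ^ 3 := hex0.trans h2
    have hR0 : 0 ≤ M * Y + k + X := by positivity
    have hER : E1 ≤ M + (M * Y + k + X) := by linarith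
    have h3 : (1 - Real.exp (-η)) * E1 ≤ (η - η ^ 2 / 2 + η ^ 3) * (M + (M * Y + k + X)) :=
      mul_le_mul h2 hER hE10 hc0
    have h4 : (η - η ^ 2 / 2 + η ^ 3) * (M * Y + k + X) ≤ η * (M * Y + k + X) :=
      mul_le_mul_of_nonneg_right hcη hR0
    have h5 : (η - η ^ 2 / 2 + η ^ 3) * M = η * M - η ^ 2 * M / 2 + η ^ 3 * M := by ring
    have h6 : η * (M * Y + k + X) = (η * M) * Y + η * k + η * X := by ring
    rw [hηM] at h6
    have h8 : η * X ≤ X := mul_le_of_le_one_left hX0 (by linarith)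
    have h9 : (η - η ^ 2 / 2 + η ^ 3) * (M + (M * Y + k + X)) =
      (η - η ^ 2 / 2 + η ^ 3) * M + (η - η ^ 2 / 2 + η ^ 3) * (M * Y + k + X) := by ring
    linarith
  have hsumx2 : η ^ 2 * (k + (1 / n) * E1) ≤ X + 4 * X := by
    have h4 : η ^ 2 * (k + (1 / n) * E1) = η ^ 2 * k + (η ^ 2 * E1) / n := by
      field_simp
    have h5 : η ^ 2 * E1 / n ≤ 4 * X := by
      rw [div_le_iff₀ hn0]
      have g0 : η ^ 2 * E1 ≤ η ^ 2 * (M * (1 + Y) + k + X) :=
        mul_le_mul_of_nonneg_left hE1le (sq_nonneg _)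
      have g1 : η ^ 2 * (M * (1 + Y) + k + X) = η * k + η * (k * Y) + η ^ 2 * k + η ^ 2 * X := by
        have : η ^ 2 * M = η * k := by rw [← hηM]; ring
        linear_combination (1 + Y) * this
      have hXn : X ≤ X * n := le_mul_of_one_le_right hX0 hnR
      have hnX : n ≤ X * n := le_mul_of_one_le_left hn0.le hn4
      have g3 : η * k ≤ X * n := by
        have : η * k ≤ 1 * n := mul_le_mul (by linarith) hkn hk0 (by norm_num)
        linarith
      have g4 : η * (k * Y) ≤ X * n := by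
        have a1 : η * (k * Y) ≤ 1 * X :=
          mul_le_mul (by linarith) hkY (by positivity) (by norm_num)
        linarith
      have g5 : η ^ 2 * k ≤ X * n := by linarith
      have g6 : η ^ 2 * X ≤ X * n := by
        have a0 : η ^ 2 ≤ 1 := pow_le_one₀ hη0 (by linarith)
        have a1 : η ^ 2 * X ≤ 1 * X := mul_le_mul_of_nonneg_right a0 hX0
        linarith
      linarith
    linarith
  have h8 : 8 * X ≤ n ^ ε := by
    have : n ^ ε = n ^ (3 * ε / 4) * n ^ (ε / 4) := by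
      rw [← Real.rpow_add hn0]
      congr 1; ring
    rw [this]
    exact mul_le_mul_of_nonneg_right hC1 hX0
  linarith

lemma count_WTL {n T : ℕ} (hT : 1 ≤ T) {P : Finset (Finset (Fin n))}
    (hPd : ∀ A ∈ P, ∀ B ∈ P, A ≠ B → Disjoint A B) :
    (P.filter (fun A => A.card = T)).card ≤ n := by
  have h2 : ∑ A ∈ P.filter (fun A => A.card = T), A.card ≤ n := by
    have h3 : ((P.filter (fun A => A.card = T)).biUnion id).card =
        ∑ A ∈ P.filter (fun A => A.card = T), (id A).card := by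
      apply Finset.card_biUnion
      intro A hA B hB hAB
      exact hPd A (Finset.mem_filter.mp hA).1 B (Finset.mem_filter.mp hB).1 hAB
    have h4 : ((P.filter (fun A => A.card = T)).biUnion id).card ≤ n := by
      have := Finset.card_le_univ ((P.filter (fun A => A.card = T)).biUnion id)
      simpa using this
    rw [h3] at h4
    exact h4
  have h5 : ∑ A ∈ P.filter (fun A => A.card = T), A.card =
      (P.filter (fun A => A.card = T)).card * T := by
    rw [Finset.sum_congr rfl (fun A hA => (Finset.mem_filter.mp hA).2), Finset.sum_const,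
      smul_eq_mul]
  rw [h5] at h2
  exact le_trans (Nat.le_mul_of_pos_right _ (by omega)) h2

lemma sq_WTL {n T : ℕ} {P : Finset (Finset (Fin n))} {a c : ℝ} (ha0 : 0 ≤ a) (ha1 : a ≤ 1)
    (hPd : ∀ A ∈ P, ∀ B ∈ P, A ≠ B → Disjoint A B) (hPc : ∀ v : Fin n, ∃ A ∈ P, v ∈ A)
    (hPT : ∀ A ∈ P, A.card ≤ T) (hT1 : 1 ≤ T) (hq : a ^ (T - 1) ≤ c) :
    ∑ S ∈ (univ : Finset (Fin n)).powersetCard T,
      (a ^ (T.choose 2 - ∑ A ∈ P, (S ∩ A).card.choose 2)) ^ 2 ≤
    (P.filter (fun A => A.card = T)).card + c * ∑ S ∈ (univ : Finset (Fin n)).powersetCard T,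
      a ^ (T.choose 2 - ∑ A ∈ P, (S ∩ A).card.choose 2) := by
  have hc : 0 ≤ c := (pow_nonneg ha0 _).trans hq
  have h2 : ∀ S ∈ (univ : Finset (Fin n)).powersetCard T,
      (a ^ (T.choose 2 - ∑ A ∈ P, (S ∩ A).card.choose 2)) ^ 2 ≤
      (if S ∈ P then (1 : ℝ) else 0) + c * a ^ (T.choose 2 - ∑ A ∈ P, (S ∩ A).card.choose 2) := by
    intro S hS
    have hSc : S.card = T := (Finset.mem_powersetCard.mp hS).2
    have hq0 : 0 ≤ a ^ (T.choose 2 - ∑ A ∈ P, (S ∩ A).card.choose 2) := pow_nonneg ha0 _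
    have hq1 : a ^ (T.choose 2 - ∑ A ∈ P, (S ∩ A).card.choose 2) ≤ 1 := pow_le_one₀ ha0 ha1
    by_cases hSP : S ∈ P
    · rw [if_pos hSP]
      have h3 : (a ^ (T.choose 2 - ∑ A ∈ P, (S ∩ A).card.choose 2)) ^ 2 ≤ 1 := pow_le_one₀ hq0 hq1
      have h4 : 0 ≤ c * a ^ (T.choose 2 - ∑ A ∈ P, (S ∩ A).card.choose 2) := mul_nonneg hc hq0
      linarith
    · rw [if_neg hSP, zero_add, sq]
      apply mul_le_mul_of_nonneg_right _ hq0
      have h3 := outside_WTL hPd hPc hPT hT1 hSc hSP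
      exact le_trans (pow_le_pow_of_le_one ha0 ha1 h3) hq
  refine (Finset.sum_le_sum h2).trans ?_
  rw [Finset.sum_add_distrib, ← Finset.mul_sum]
  apply add_le_add _ le_rfl
  rw [← Finset.sum_filter, Finset.sum_const, nsmul_eq_mul, mul_one]
  have h3 : ((univ : Finset (Fin n)).powersetCard T).filter (fun S => S ∈ P) ⊆
      P.filter (fun A => A.card = T) := by
    intro S hS
    rw [Finset.mem_filter] at hS ⊢
    exact ⟨hS.2, (Finset.mem_powersetCard.mp hS.1).2⟩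
  exact_mod_cast Finset.card_le_card h3

lemma prod_WTL {n T : ℕ} {P : Finset (Finset (Fin n))} {a η : ℝ} (ha0 : 0 ≤ a) (ha1 : a ≤ 1)
    (hη0 : 0 ≤ η) (hη1 : η ≤ 1 / 2) (SQ E1 : ℝ)
    (hE1 : ∑ S ∈ (univ : Finset (Fin n)).powersetCard T,
      a ^ (T.choose 2 - ∑ A ∈ P, (S ∩ A).card.choose 2) = E1)
    (hSQ : ∑ S ∈ (univ : Finset (Fin n)).powersetCard T,
      (a ^ (T.choose 2 - ∑ A ∈ P, (S ∩ A).card.choose 2)) ^ 2 ≤ SQ) :
    Real.exp (-((1 - Real.exp (-η)) * E1 + η ^ 2 * SQ)) ≤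
    ∏ S ∈ (univ : Finset (Fin n)).powersetCard T,
      (1 - (1 - Real.exp (-η)) * a ^ (T.choose 2 - ∑ A ∈ P, (S ∩ A).card.choose 2)) := by
  have hex0 : 0 ≤ 1 - Real.exp (-η) := by
    have : Real.exp (-η) ≤ 1 := by
      rw [Real.exp_le_one_iff]; linarith
    linarith
  have hexη : 1 - Real.exp (-η) ≤ η := by
    have := Real.add_one_le_exp (-η)
    linarith
  have hx0 : ∀ S : Finset (Fin n), 0 ≤ (1 - Real.exp (-η)) *
      a ^ (T.choose 2 - ∑ A ∈ P, (S ∩ A).card.choose 2) :=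
    fun S => mul_nonneg hex0 (pow_nonneg ha0 _)
  have hx1 : ∀ S : Finset (Fin n), (1 - Real.exp (-η)) *
      a ^ (T.choose 2 - ∑ A ∈ P, (S ∩ A).card.choose 2) ≤
      η * a ^ (T.choose 2 - ∑ A ∈ P, (S ∩ A).card.choose 2) :=
    fun S => mul_le_mul_of_nonneg_right hexη (pow_nonneg ha0 _)
  have hx12 : ∀ S : Finset (Fin n), (1 - Real.exp (-η)) *
      a ^ (T.choose 2 - ∑ A ∈ P, (S ∩ A).card.choose 2) ≤ 1 / 2 := by
    intro S
    have h2 : η * a ^ (T.choose 2 - ∑ A ∈ P, (S ∩ A).card.choose 2) ≤ η :=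
      mul_le_of_le_one_right hη0 (pow_le_one₀ ha0 ha1)
    linarith [hx1 S]
  refine le_trans ?_ (Finset.prod_le_prod (fun S _ => (Real.exp_pos _).le)
    (fun S _ => exp_lower_WTL (hx0 S) (hx12 S)))
  rw [← Real.exp_sum]
  apply Real.exp_le_exp.mpr
  rw [Finset.sum_sub_distrib, Finset.sum_neg_distrib, ← Finset.mul_sum, hE1]
  have h2 : ∑ S ∈ (univ : Finset (Fin n)).powersetCard T, ((1 - Real.exp (-η)) *
      a ^ (T.choose 2 - ∑ A ∈ P, (S ∩ A).card.choose 2)) ^ 2 ≤ η ^ 2 * SQ := by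
    refine le_trans ?_ (mul_le_mul_of_nonneg_left hSQ (sq_nonneg η))
    rw [Finset.mul_sum]
    apply Finset.sum_le_sum
    intro S _
    have := pow_le_pow_left₀ (hx0 S) (hx1 S) 2
    rwa [mul_pow η] at this
  linarith

open Classical in
lemma hlb_WTL (hHLB : StHLB) {p η : ℝ} {n T : ℕ} {P : Finset (Finset (Fin n))}
    (hPd : ∀ A ∈ P, ∀ B ∈ P, A ≠ B → Disjoint A B) (h0 : 0 ≤ p) (h1 : p ≤ 1) (hη0 : 0 ≤ η) :
    (1 - p) ^ inn P * ∏ S ∈ (univ : Finset (Fin n)).powersetCard T,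
      (1 - (1 - Real.exp (-η)) * (1 - p) ^ (T.choose 2 - ∑ A ∈ P, (S ∩ A).card.choose 2)) ≤
    EE p (fun ω : Sym2 (Fin n) → Bool => (if prp ω P then (1 : ℝ) else 0) *
      Real.exp (-η * Xk n T ω)) := by
  have hH := hHLB p η (Sym2 (Fin n)) (Finset (Fin n)) ((univ : Finset (Fin n)).powersetCard T)
    (fun S => BS S) (ZP P) h0 h1 hη0
  rw [card_ZP hPd] at hH
  have hfac : ∏ S ∈ (univ : Finset (Fin n)).powersetCard T,
      (1 - (1 - Real.exp (-η)) * (1 - p) ^ (BS S \ ZP P).card) =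
      ∏ S ∈ (univ : Finset (Fin n)).powersetCard T,
      (1 - (1 - Real.exp (-η)) * (1 - p) ^ (T.choose 2 - ∑ A ∈ P, (S ∩ A).card.choose 2)) := by
    apply Finset.prod_congr rfl
    intro S hS
    rw [card_sdiff_ZP hPd, (Finset.mem_powersetCard.mp hS).2]
  rw [hfac] at hH
  refine hH.trans (le_of_eq ?_)
  congr 1
  funext ω
  rw [Xk_eq]
  congr 1
  by_cases hprp : prp ω P
  · rw [if_pos hprp, if_pos ((prp_iff P ω).mp hprp)]
  · rw [if_neg hprp, if_neg (fun h => hprp ((prp_iff P ω).mpr h))]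

lemma mem_Pt_WTL {V : Type} [Fintype V] {P : Finset (Finset V)} (hP : P ∈ Pt V) :
    (∀ A ∈ P, ∀ B ∈ P, A ≠ B → Disjoint A B) ∧ ∀ v : V, ∃ A ∈ P, v ∈ A := by
  classical
  unfold Pt at hP
  rw [Finset.mem_filter] at hP
  exact hP.2.2

theorem hWTL : StHLB → StEPY → StMKS → StWTL := by
  intro hHLB hEPY hMKS p ε h0 h1' hε hε1
  have h1 := p_lt_one_WTL h1'
  obtain ⟨nE, hE⟩ := hEPY p (ε / 4) h0 h1' (by positivity) (by linarith)
  obtain ⟨nM, hM⟩ := hMKS p ε h0 h1' hε hε1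
  obtain ⟨nQ, hQ⟩ := qT_WTL h0 h1 hε
  have hpw : Tendsto (fun n : ℕ => ((n : ℝ) ^ (3 * ε / 4))) atTop atTop :=
    (tendsto_rpow_atTop (by positivity)).comp tendsto_natCast_atTop_atTop
  have hpw2 : Tendsto (fun n : ℕ => ((n : ℝ) ^ ((1 : ℝ) / 4))) atTop atTop :=
    (tendsto_rpow_atTop (by norm_num)).comp tendsto_natCast_atTop_atTop
  obtain ⟨nC, hC⟩ := eventually_atTop.1 ((hpw.eventually (eventually_ge_atTop 8)).and
    ((hpw2.eventually (eventually_ge_atTop 2)).and (eventually_ge_atTop 1)))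
  refine ⟨max (max nE nM) (max nQ nC), fun n T th P kT η hn hW hP hPT hkT hη => ?_⟩
  have hnE : nE ≤ n := le_trans (le_trans (le_max_left _ _) (le_max_left _ _)) hn
  have hnM : nM ≤ n := le_trans (le_trans (le_max_right _ _) (le_max_left _ _)) hn
  have hnQ : nQ ≤ n := le_trans (le_trans (le_max_left _ _) (le_max_right _ _)) hn
  have hnC : nC ≤ n := le_trans (le_trans (le_max_right _ _) (le_max_right _ _)) hn
  obtain ⟨hC1, hC2, hn1⟩ := hC n hnC
  obtain ⟨hT4, -, hTn, hMlo, -, -, -⟩ := hM n T th hnM hW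
  have hT1 : 1 ≤ T := by omega
  have hq := hQ n T th hnQ hW hT1
  have hW4 : Win p (ε / 4) n T th := ⟨hW.1, hW.2.1, by linarith [hW.2.2]⟩
  have hE1 := hE n T th P hnE hW4 hP hPT
  -- the partition
  obtain ⟨hPd, hPc⟩ := mem_Pt_WTL hP
  have hnR : (1 : ℝ) ≤ n := by exact_mod_cast hn1
  have hqp : 0 < 1 - p := by linarith
  have hq1 : 1 - p ≤ 1 := by linarith
  have hkT' : (P.filter (fun A => A.card = T)).card = kT := by
    convert hkT
  have hkn : (kT : ℝ) ≤ n := by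
    have := count_WTL hT1 hPd
    rw [hkT'] at this
    exact_mod_cast this
  have hE10 : 0 ≤ ∑ S ∈ (univ : Finset (Fin n)).powersetCard T,
      (1 - p) ^ (T.choose 2 - ∑ A ∈ P, (S ∩ A).card.choose 2) :=
    Finset.sum_nonneg fun S _ => pow_nonneg hqp.le _
  have hE1' : ∑ S ∈ (univ : Finset (Fin n)).powersetCard T,
      (1 - p) ^ (T.choose 2 - ∑ A ∈ P, (S ∩ A).card.choose 2) ≤
      Mk p n T * (1 + (n : ℝ) ^ (-1 + ε / 4)) + kT + (n : ℝ) ^ (ε / 4) := by
    rw [← hkT']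
    convert hE1
  obtain ⟨hη0, hη12, hmain⟩ := real_WTL hnR hε hε1 hW.2.1 hMlo (Nat.cast_nonneg kT) hkn hη hE10 hE1'
    hC2 hC1
  have hsq := sq_WTL hqp.le hq1 hPd hPc hPT hT1 hq
  rw [hkT'] at hsq
  have hpr := prod_WTL (P := P) (T := T) hqp.le hq1 hη0 hη12 _ _ rfl hsq
  have hH := hlb_WTL hHLB (p := p) (η := η) (T := T) hPd h0.le h1.le hη0
  have hprod : Real.exp (-η * Mk p n T + η ^ 2 * Mk p n T / 2 - η * kT - (n : ℝ) ^ ε) ≤
      ∏ S ∈ (univ : Finset (Fin n)).powersetCard T,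
      (1 - (1 - Real.exp (-η)) * (1 - p) ^ (T.choose 2 - ∑ A ∈ P, (S ∩ A).card.choose 2)) := by
    refine le_trans ?_ hpr
    apply Real.exp_le_exp.mpr
    linarith
  have hqi : 0 ≤ (1 - p) ^ inn P := pow_nonneg hqp.le _
  exact (mul_le_mul_of_nonneg_left hprod hqi).trans hH

end Pool.Agent.Helper63.UX
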